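import Pool.Agent.H790.BSD.PoisB

set_option autoImplicit false

open Complex Filter Topology MeasureTheory

namespace Pool.Agent.H790.BSD

section
variable {f : ℂ → ℂ} {σ : ℝ}

theorem isOpen_half : IsOpen {w : ℂ | 0 < w.re} := isOpen_lt continuous_const continuous_re

theorem line_cont (hσ : 0 < σ) (hf : DifferentiableOn ℂ f {w | 0 < w.re}) :
    Continuous fun t : ℝ => f (σ + t * I) := by
  apply hf.continuousOn.comp_continuous (by fun_prop)
  intro t
  simp [hσ]

theorem half_plane (hσ : 0 < σ) (hf : DifferentiableOn ℂ f {w | 0 < w.re})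
    (hpos : ∀ w : ℂ, 0 < w.re → 0 ≤ (f w).re) :
    Integrable (fun t : ℝ => (f (σ + t * I)).re / (1 + t ^ 2)) ∧
      ∫ t : ℝ, (f (σ + t * I)).re / (1 + t ^ 2) ≤ Real.pi * (f (σ + 1)).re := by
  -- radii
  let r : ℕ → ℝ := fun n => 1 - 1 / ((n : ℝ) + 1)
  have hr0 : ∀ n, 0 ≤ r n := by
    intro n
    change 0 ≤ 1 - 1 / ((n : ℝ) + 1)
    have h1 : 1 / ((n : ℝ) + 1) ≤ 1 := by
      rw [div_le_one (by positivity)]
      have : (0 : ℝ) ≤ n := Nat.cast_nonneg n
      linarith
    linarith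
  have hr1 : ∀ n, r n < 1 := by
    intro n
    change 1 - 1 / ((n : ℝ) + 1) < 1
    have : 0 < 1 / ((n : ℝ) + 1) := by positivity
    linarith
  have hr : Tendsto r atTop (𝓝 1) := by
    have := (tendsto_one_div_add_atTop_nhds_zero_nat (𝕜 := ℝ)).const_sub 1
    rw [sub_zero] at this
    exact this
  let F : ℕ → ℝ → ℝ := fun n t =>
    2 / (1 + t ^ 2) * (f (cay σ (circleMap 0 (r n) (-2 * Real.arctan t)))).re
  let G : ℝ → ℝ := fun t => 2 / (1 + t ^ 2) * (f (σ + t * I)).re
  have hF : ∀ n, Integrable (F n) ∧ ∫ t, F n t = 2 * Real.pi * (f (σ + 1)).re := by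
    intro n
    have hc : Continuous fun θ : ℝ => (f (cay σ (circleMap 0 (r n) θ))).re :=
      continuous_re.comp (circle_cont hσ hf (hr0 n) (hr1 n))
    have h1 := change (fun θ => (f (cay σ (circleMap 0 (r n) θ))).re) hc (by
      intro θ
      change (f (cay σ (circleMap 0 (r n) (θ + 2 * Real.pi)))).re = _
      rw [periodic_circleMap 0 (r n) θ])
    refine ⟨h1.1, ?_⟩
    rw [← mean_value hσ hf (hr0 n) (hr1 n)]
    exact h1.2
  have hFpos : ∀ n t, 0 ≤ F n t := by
    intro n t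
    apply mul_nonneg (by positivity)
    apply hpos
    apply cay_pos hσ
    rw [circle_norm (hr0 n)]
    exact hr1 n
  have hGpos : ∀ t, 0 ≤ G t := by
    intro t
    apply mul_nonneg (by positivity)
    apply hpos
    simp [hσ]
  have hGc : Continuous G := by
    apply Continuous.mul
    · apply Continuous.div (by fun_prop) (by fun_prop)
      intro t
      positivity
    · exact continuous_re.comp (line_cont hσ hf)
  have hlim : ∀ t, Tendsto (fun n => F n t) atTop (𝓝 (G t)) := by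
    intro t
    apply Tendsto.const_mul
    have hne := one_add_phi t
    have h1 : Tendsto (fun n => circleMap 0 (r n) (-2 * Real.arctan t)) atTop
        (𝓝 (exp (((-2 * Real.arctan t : ℝ) : ℂ) * I))) := by
      have h2 : Tendsto (fun n => ((r n : ℝ) : ℂ) * exp (((-2 * Real.arctan t : ℝ) : ℂ) * I)) atTop
          (𝓝 (((1 : ℝ) : ℂ) * exp (((-2 * Real.arctan t : ℝ) : ℂ) * I))) :=
        ((continuous_ofReal.tendsto 1).comp hr).mul_const _
      rw [ofReal_one, one_mul] at h2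
      refine h2.congr fun n => ?_
      simp [circleMap]
    have h3 : ContinuousAt (cay σ) (exp (((-2 * Real.arctan t : ℝ) : ℂ) * I)) := by
      unfold cay
      exact continuousAt_const.add ((continuousAt_const.sub continuousAt_id).div
        (continuousAt_const.add continuousAt_id) hne)
    have h4 : cay σ (exp (((-2 * Real.arctan t : ℝ) : ℂ) * I)) = σ + t * I := by
      unfold cay
      rw [cayley_phi]
    have h5 : ContinuousAt f (σ + t * I) :=
      (hf.differentiableAt (isOpen_half.mem_nhds (by simp [hσ]))).continuousAt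
    have h6 := h3.tendsto.comp h1
    rw [h4] at h6
    exact (continuous_re.tendsto _).comp (h5.tendsto.comp h6)
  -- Fatou
  have hfat : ∫⁻ t, ENNReal.ofReal (G t) ≤ ENNReal.ofReal (2 * Real.pi * (f (σ + 1)).re) := by
    have h1 : ∀ t, liminf (fun n => ENNReal.ofReal (F n t)) atTop = ENNReal.ofReal (G t) := by
      intro t
      exact ((ENNReal.continuous_ofReal.tendsto _).comp (hlim t)).liminf_eq
    have h2 : ∀ n, ∫⁻ t, ENNReal.ofReal (F n t) =
        ENNReal.ofReal (2 * Real.pi * (f (σ + 1)).re) := by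
      intro n
      rw [← ofReal_integral_eq_lintegral_ofReal (hF n).1 (Eventually.of_forall (hFpos n)),
        (hF n).2]
    calc ∫⁻ t, ENNReal.ofReal (G t) = ∫⁻ t, liminf (fun n => ENNReal.ofReal (F n t)) atTop := by
          simp only [h1]
      _ ≤ liminf (fun n => ∫⁻ t, ENNReal.ofReal (F n t)) atTop := by
          apply lintegral_liminf_le'
          intro n
          exact (hF n).1.aestronglyMeasurable.aemeasurable.ennreal_ofReal
      _ = ENNReal.ofReal (2 * Real.pi * (f (σ + 1)).re) := by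
          simp only [h2, liminf_const]
  have hGint : Integrable G := by
    refine ⟨hGc.aestronglyMeasurable, ?_⟩
    rw [hasFiniteIntegral_iff_ofReal (Eventually.of_forall hGpos)]
    exact hfat.trans_lt ENNReal.ofReal_lt_top
  have hnn : 0 ≤ 2 * Real.pi * (f (σ + 1)).re := by
    have := hpos (σ + 1) (by simp; linarith)
    positivity
  have hGle : ∫ t, G t ≤ 2 * Real.pi * (f (σ + 1)).re := by
    rw [integral_eq_lintegral_of_nonneg_ae (Eventually.of_forall hGpos)
      hGc.aestronglyMeasurable]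
    exact ENNReal.toReal_le_of_le_ofReal hnn hfat
  have hG2 : (fun t : ℝ => (f (σ + t * I)).re / (1 + t ^ 2)) = fun t => (1 / 2) * G t := by
    funext t
    change _ = (1 / 2) * (2 / (1 + t ^ 2) * (f (σ + t * I)).re)
    ring
  rw [hG2]
  refine ⟨hGint.const_mul _, ?_⟩
  rw [integral_const_mul]
  linarith

end

/-- the integrable majorant -/
theorem major_int (A B : ℝ) :
    Integrable (fun t : ℝ => (4 * A * (1 + t ^ 2) ^ (1 / 4 : ℝ) + B) / (1 + t ^ 2)) := by
  have h1 : Integrable fun t : ℝ => (1 + ‖t‖ ^ 2) ^ (-(3 / 2 : ℝ) / 2) :=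
    integrable_rpow_neg_one_add_norm_sq (by simp; norm_num)
  have h2 : (fun t : ℝ => (4 * A * (1 + t ^ 2) ^ (1 / 4 : ℝ) + B) / (1 + t ^ 2)) =
      fun t => 4 * A * (1 + ‖t‖ ^ 2) ^ (-(3 / 2 : ℝ) / 2) + B * (1 + t ^ 2)⁻¹ := by
    funext t
    have hpos : (0 : ℝ) < 1 + t ^ 2 := by positivity
    have e1 : (1 + ‖t‖ ^ 2) ^ (-(3 / 2 : ℝ) / 2) = (1 + t ^ 2) ^ (1 / 4 : ℝ) / (1 + t ^ 2) := by
      rw [Real.norm_eq_abs, sq_abs]
      have : (-(3 / 2 : ℝ) / 2) = 1 / 4 - 1 := by norm_num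
      rw [this, Real.rpow_sub hpos, Real.rpow_one]
    rw [e1, add_div]
    ring
  rw [h2]
  exact (h1.const_mul _).add (integrable_inv_one_add_sq.const_mul _)

theorem log_bound (t : ℝ) : Real.log (3 + |t|) ≤ 4 * (1 + t ^ 2) ^ (1 / 4 : ℝ) := by
  have hpos : (0 : ℝ) < 1 + t ^ 2 := by positivity
  have h1 : Real.log (3 + |t|) ≤ (3 + |t|) ^ (1 / 2 : ℝ) / (1 / 2) :=
    Real.log_le_rpow_div (by positivity) (by norm_num)
  have h2 : (3 + |t|) ≤ 4 * (1 + t ^ 2) ^ (1 / 2 : ℝ) := by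
    rw [← Real.sqrt_eq_rpow]
    have h3 : 1 ≤ √(1 + t ^ 2) := by
      rw [Real.one_le_sqrt]; nlinarith [sq_nonneg t]
    have h4 : |t| ≤ √(1 + t ^ 2) := Real.abs_le_sqrt (by linarith)
    linarith
  have h3 : (3 + |t|) ^ (1 / 2 : ℝ) ≤ (4 * (1 + t ^ 2) ^ (1 / 2 : ℝ)) ^ (1 / 2 : ℝ) :=
    Real.rpow_le_rpow (by positivity) h2 (by norm_num)
  have h4 : (4 * (1 + t ^ 2) ^ (1 / 2 : ℝ)) ^ (1 / 2 : ℝ) = 2 * (1 + t ^ 2) ^ (1 / 4 : ℝ) := by
    rw [Real.mul_rpow (by norm_num) (by positivity), ← Real.rpow_mul hpos.le]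
    have : (4 : ℝ) ^ (1 / 2 : ℝ) = 2 := by
      rw [← Real.sqrt_eq_rpow, show (4 : ℝ) = 2 ^ 2 by norm_num, Real.sqrt_sq (by norm_num)]
    rw [this]
    norm_num
  rw [h4] at h3
  linarith

theorem pois (L : ℂ → ℂ) (hL : DifferentiableOn ℂ L {w | 0 < w.re})
    (hB0 : ∃ B0 : ℝ, ∀ w : ℂ, 1 ≤ w.re → ‖L w‖ ≤ B0)
    (hA : ∃ A : ℝ, ∀ w : ℂ, 0 < w.re → (L w).re ≤ A * (1 + Real.log (1 + ‖w‖))) :
    ∃ C : ℝ, ∀ σ : ℝ, 0 < σ → σ ≤ 1 →
      Integrable (fun t : ℝ => |(L (σ + t * I)).re| / (1 + t ^ 2)) ∧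
      ∫ t : ℝ, |(L (σ + t * I)).re| / (1 + t ^ 2) ≤ C := by
  obtain ⟨B0, hB0⟩ := hB0
  obtain ⟨A, hA⟩ := hA
  set A' := |A| with hA'
  set B' := |A| * (1 + Real.log 2) with hB'
  have hA'0 : 0 ≤ A' := abs_nonneg A
  have hlog2 : 0 < Real.log 2 := Real.log_pos (by norm_num)
  have hB'0 : 0 ≤ B' := by positivity
  let f : ℂ → ℂ := fun w => A' * Complex.log (w + 2) + B' - L w
  have hslit : ∀ w : ℂ, 0 < w.re → w + 2 ∈ slitPlane := by
    intro w hw
    left
    simp
    linarith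
  have hf : DifferentiableOn ℂ f {w | 0 < w.re} := by
    intro w hw
    have h1 : DifferentiableWithinAt ℂ (fun w : ℂ => Complex.log (w + 2)) {w | 0 < w.re} w :=
      ((differentiableAt_id.add_const 2).clog (hslit w hw)).differentiableWithinAt
    exact ((h1.const_mul _).add_const _).sub (hL w hw)
  have hre : ∀ w : ℂ, 0 < w.re → (f w).re = A' * Real.log ‖w + 2‖ + B' - (L w).re := by
    intro w hw
    change ((A' : ℂ) * Complex.log (w + 2) + B' - L w).re = _
    rw [sub_re, add_re, re_ofReal_mul, ofReal_re, Complex.log_re]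
  have hnorm : ∀ w : ℂ, 0 < w.re → 1 + ‖w‖ ≤ 2 * ‖w + 2‖ := by
    intro w hw
    have h1 : 2 ≤ ‖w + 2‖ := by
      have := Complex.re_le_norm (w + 2)
      simp at this
      linarith
    have h2 : ‖w‖ ≤ ‖w + 2‖ := by
      rw [← abs_of_nonneg (norm_nonneg w), ← abs_of_nonneg (norm_nonneg (w + 2)), ← sq_le_sq]
      rw [← normSq_eq_norm_sq, ← normSq_eq_norm_sq, normSq_apply, normSq_apply]
      simp
      nlinarith
    linarith
  have hpos : ∀ w : ℂ, 0 < w.re → 0 ≤ (f w).re := by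
    intro w hw
    rw [hre w hw]
    have h1 := hA w hw
    have h2 : Real.log (1 + ‖w‖) ≤ Real.log 2 + Real.log ‖w + 2‖ := by
      have h3 : 0 < ‖w + 2‖ := by
        have := hnorm w hw
        have := norm_nonneg w
        linarith
      rw [← Real.log_mul (by norm_num) h3.ne']
      exact Real.log_le_log (by positivity) (hnorm w hw)
    have h4 : 0 ≤ Real.log (1 + ‖w‖) := Real.log_nonneg (by linarith [norm_nonneg w])
    have h5 : A * (1 + Real.log (1 + ‖w‖)) ≤ A' * (1 + Real.log (1 + ‖w‖)) :=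
      mul_le_mul_of_nonneg_right (le_abs_self A) (by linarith)
    have h6 : A' * (1 + Real.log (1 + ‖w‖)) ≤ A' * (1 + (Real.log 2 + Real.log ‖w + 2‖)) :=
      mul_le_mul_of_nonneg_left (by linarith) hA'0
    have h7 : A' * (1 + (Real.log 2 + Real.log ‖w + 2‖)) = A' * Real.log ‖w + 2‖ + B' := by
      rw [hB']; ring
    linarith
  have hmaj := major_int A' B'
  refine ⟨Real.pi * (A' * Real.log 4 + B' + B0) +
    ∫ t : ℝ, (4 * A' * (1 + t ^ 2) ^ (1 / 4 : ℝ) + B') / (1 + t ^ 2), ?_⟩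
  intro σ hσ hσ1
  obtain ⟨h1, h2⟩ := half_plane hσ hf hpos
  have hle : ∀ t : ℝ, |(L (σ + t * I)).re| / (1 + t ^ 2) ≤
      (f (σ + t * I)).re / (1 + t ^ 2) +
        (4 * A' * (1 + t ^ 2) ^ (1 / 4 : ℝ) + B') / (1 + t ^ 2) := by
    intro t
    rw [← add_div]
    apply div_le_div_of_nonneg_right _ (by positivity)
    have hw : 0 < ((σ : ℂ) + t * I).re := by simp [hσ]
    have h3 := hre _ hw
    have h4 := hpos _ hw
    have h5 : Real.log ‖(σ : ℂ) + t * I + 2‖ ≤ 4 * (1 + t ^ 2) ^ (1 / 4 : ℝ) := by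
      refine (Real.log_le_log ?_ ?_).trans (log_bound t)
      · have := hnorm _ hw
        have := norm_nonneg ((σ : ℂ) + t * I)
        linarith
      · calc ‖(σ : ℂ) + t * I + 2‖ ≤ ‖(σ : ℂ)‖ + ‖(t : ℂ) * I‖ + ‖(2 : ℂ)‖ := norm_add₃_le
          _ ≤ 3 + |t| := by
            rw [norm_mul, norm_I, norm_real, norm_real, Real.norm_eq_abs, Real.norm_eq_abs,
              abs_of_pos hσ]
            norm_num
            linarith
    have h6 : 0 ≤ Real.log ‖(σ : ℂ) + t * I + 2‖ := by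
      apply Real.log_nonneg
      have := hnorm _ hw
      have h7 : 2 ≤ ‖(σ : ℂ) + t * I + 2‖ := by
        have := Complex.re_le_norm ((σ : ℂ) + t * I + 2)
        simp at this
        linarith
      linarith
    have h8 : A' * Real.log ‖(σ : ℂ) + t * I + 2‖ ≤ A' * (4 * (1 + t ^ 2) ^ (1 / 4 : ℝ)) :=
      mul_le_mul_of_nonneg_left h5 hA'0
    have h9 : 0 ≤ A' * Real.log ‖(σ : ℂ) + t * I + 2‖ := mul_nonneg hA'0 h6
    rw [abs_le]
    constructor <;> linarith
  have hmeas : AEStronglyMeasurable (fun t : ℝ => |(L (σ + t * I)).re| / (1 + t ^ 2)) := by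
    apply Continuous.aestronglyMeasurable
    apply Continuous.div
    · exact (continuous_re.comp (line_cont hσ hL)).abs
    · fun_prop
    · intro t; positivity
  have hint : Integrable (fun t : ℝ => |(L (σ + t * I)).re| / (1 + t ^ 2)) := by
    refine (h1.add hmaj).mono' hmeas (Eventually.of_forall fun t => ?_)
    rw [Real.norm_eq_abs, abs_of_nonneg (by positivity)]
    exact hle t
  refine ⟨hint, ?_⟩
  have h3 := integral_mono hint (h1.add hmaj) hle
  have h4 := integral_add h1 hmaj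
  simp only [Pi.add_apply] at h3
  rw [h4] at h3
  have h5 : (f (σ + 1)).re ≤ A' * Real.log 4 + B' + B0 := by
    have hw : 0 < ((σ : ℂ) + 1).re := by simp; linarith
    rw [hre _ hw]
    have h6 : ‖L (σ + 1)‖ ≤ B0 := hB0 _ (by simp; linarith)
    have h7 : -(L (σ + 1)).re ≤ ‖L (σ + 1)‖ := by
      have := Complex.abs_re_le_norm (L (σ + 1))
      exact (neg_le_abs _).trans this
    have h8 : Real.log ‖(σ : ℂ) + 1 + 2‖ ≤ Real.log 4 := by
      apply Real.log_le_log
      · have := hnorm _ hw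
        have := norm_nonneg ((σ : ℂ) + 1)
        linarith
      · have e : (σ : ℂ) + 1 + 2 = ((σ + 3 : ℝ) : ℂ) := by push_cast; ring
        rw [e, norm_real, Real.norm_eq_abs, abs_of_pos (by linarith)]
        linarith
    have h9 : A' * Real.log ‖(σ : ℂ) + 1 + 2‖ ≤ A' * Real.log 4 :=
      mul_le_mul_of_nonneg_left h8 hA'0
    linarith
  have h6 : Real.pi * (f (σ + 1)).re ≤ Real.pi * (A' * Real.log 4 + B' + B0) :=
    mul_le_mul_of_nonneg_left h5 Real.pi_pos.le
  linarith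

end Pool.Agent.H790.BSD
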