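import Mathlib

set_option autoImplicit false

open Complex Filter Topology MeasureTheory

namespace Pool.Agent.H790.BSD

theorem cayley_re {z : ℂ} (hz : ‖z‖ < 1) : 0 < ((1 - z) / (1 + z)).re := by
  have h1 : 1 + z ≠ 0 := by
    intro h
    have : z = -1 := by linear_combination h
    rw [this] at hz
    simp at hz
  have h2 : 0 < normSq (1 + z) := normSq_pos.2 h1
  rw [div_re]
  have h3 : z.re ^ 2 + z.im ^ 2 < 1 := by
    have h4 : normSq z < 1 := by
      rw [normSq_eq_norm_sq]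
      nlinarith [norm_nonneg z]
    rw [normSq_apply] at h4
    nlinarith
  simp only [sub_re, one_re, add_re, sub_im, one_im, add_im]
  rw [← add_div]
  apply div_pos _ h2
  nlinarith

theorem cayley_ne {z : ℂ} (hz : ‖z‖ < 1) : 1 + z ≠ 0 := by
  intro h
  have : z = -1 := by linear_combination h
  rw [this] at hz
  simp at hz

/-- the boundary point -/
theorem exp_phi (t : ℝ) : exp (((-2 * Real.arctan t : ℝ) : ℂ) * I) =
    (1 - t * I) ^ 2 / (1 + (t : ℂ) ^ 2) := by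
  have hs : (0 : ℝ) < 1 + t ^ 2 := by positivity
  have e1 : exp (((-2 * Real.arctan t : ℝ) : ℂ) * I) = exp (-(Real.arctan t : ℂ) * I) ^ 2 := by
    rw [← exp_nat_mul]
    congr 1
    push_cast
    ring
  rw [e1, exp_mul_I]
  have e2 : Complex.cos (-(Real.arctan t : ℂ)) = ((1 / √(1 + t ^ 2) : ℝ) : ℂ) := by
    rw [Complex.cos_neg, ← Real.cos_arctan, Complex.ofReal_cos]
  have e3 : Complex.sin (-(Real.arctan t : ℂ)) = -((t / √(1 + t ^ 2) : ℝ) : ℂ) := by
    rw [Complex.sin_neg, ← Real.sin_arctan, Complex.ofReal_sin]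
  rw [e2, e3]
  have hsq : ((√(1 + t ^ 2) : ℝ) : ℂ) ^ 2 = 1 + (t : ℂ) ^ 2 := by
    rw [← ofReal_pow, Real.sq_sqrt hs.le]
    push_cast
    rfl
  have hne : ((√(1 + t ^ 2) : ℝ) : ℂ) ≠ 0 := by
    exact_mod_cast (Real.sqrt_pos.2 hs).ne'
  push_cast
  rw [← hsq]
  field_simp
  ring

theorem one_add_t (t : ℝ) : (1 + (t : ℂ) ^ 2) ≠ 0 := by
  have : (1 + t ^ 2 : ℝ) ≠ 0 := by positivity
  exact_mod_cast this

theorem one_sub_tI (t : ℝ) : (1 - (t : ℂ) * I) ≠ 0 := by
  intro h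
  have := congrArg re h
  simp at this

theorem one_add_phi (t : ℝ) : 1 + exp (((-2 * Real.arctan t : ℝ) : ℂ) * I) ≠ 0 := by
  rw [exp_phi]
  have h1 := one_add_t t
  have e : 1 + (1 - t * I) ^ 2 / (1 + (t : ℂ) ^ 2) = 2 * (1 - t * I) / (1 + (t : ℂ) ^ 2) := by
    field_simp
    linear_combination (t : ℂ) ^ 2 * I_sq
  rw [e]
  exact div_ne_zero (mul_ne_zero two_ne_zero (one_sub_tI t)) h1

theorem cayley_phi (t : ℝ) : (1 - exp (((-2 * Real.arctan t : ℝ) : ℂ) * I)) /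
    (1 + exp (((-2 * Real.arctan t : ℝ) : ℂ) * I)) = t * I := by
  rw [div_eq_iff (one_add_phi t), exp_phi]
  have h1 := one_add_t t
  field_simp
  linear_combination ((t : ℂ) ^ 2 - t ^ 3 * I) * I_sq

end Pool.Agent.H790.BSD
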