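import Pool.Agent.H790.BSD.PoisA

set_option autoImplicit false

open Complex Filter Topology MeasureTheory

namespace Pool.Agent.H790.BSD

section
variable {f : ℂ → ℂ} {σ : ℝ}

/-- the Cayley parametrisation -/
noncomputable def cay (σ : ℝ) (z : ℂ) : ℂ := σ + (1 - z) / (1 + z)

theorem cay_diff (σ : ℝ) : DifferentiableOn ℂ (cay σ) (Metric.ball 0 1) := by
  intro z hz
  have hz' : ‖z‖ < 1 := by simpa using hz
  have : DifferentiableAt ℂ (cay σ) z := by
    unfold cay
    exact ((differentiableAt_const _).sub differentiableAt_id).div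
      ((differentiableAt_const _).add differentiableAt_id) (cayley_ne hz') |>.const_add _
  exact this.differentiableWithinAt

theorem cay_pos (hσ : 0 < σ) {z : ℂ} (hz : ‖z‖ < 1) : 0 < (cay σ z).re := by
  unfold cay
  rw [add_re, ofReal_re]
  have := cayley_re hz
  linarith

theorem comp_diff (hσ : 0 < σ) (hf : DifferentiableOn ℂ f {w | 0 < w.re}) :
    DifferentiableOn ℂ (fun z => f (cay σ z)) (Metric.ball 0 1) :=
  hf.comp (cay_diff σ) fun z hz => cay_pos hσ (by simpa using hz)

theorem circle_norm {r : ℝ} (hr0 : 0 ≤ r) (θ : ℝ) : ‖circleMap 0 r θ‖ = r := by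
  rw [norm_circleMap_zero, abs_of_nonneg hr0]

theorem circle_cont (hσ : 0 < σ) (hf : DifferentiableOn ℂ f {w | 0 < w.re}) {r : ℝ}
    (hr0 : 0 ≤ r) (hr : r < 1) : Continuous fun θ : ℝ => f (cay σ (circleMap 0 r θ)) := by
  have h1 := (comp_diff hσ hf).continuousOn
  exact h1.comp_continuous (continuous_circleMap 0 r) fun θ => by
    rw [Metric.mem_ball, dist_zero_right, circle_norm hr0]
    exact hr

theorem mean_value (hσ : 0 < σ) (hf : DifferentiableOn ℂ f {w | 0 < w.re}) {r : ℝ}
    (hr0 : 0 ≤ r) (hr : r < 1) :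
    ∫ θ in (0 : ℝ)..2 * Real.pi, (f (cay σ (circleMap 0 r θ))).re =
      2 * Real.pi * (f (σ + 1)).re := by
  have h1 : DiffContOnCl ℂ (fun z => f (cay σ z)) (Metric.ball 0 |r|) := by
    apply (comp_diff hσ hf).diffContOnCl_ball
    rw [abs_of_nonneg hr0]
    exact Metric.closedBall_subset_ball hr
  have h2 := h1.circleAverage
  have h0 : cay σ 0 = σ + 1 := by unfold cay; simp
  rw [Real.circleAverage_def, h0] at h2
  have hc := circle_cont hσ hf hr0 hr
  have h3 := congrArg re h2
  rw [Complex.real_smul, re_ofReal_mul] at h3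
  have h4 : (∫ θ in (0 : ℝ)..2 * Real.pi, f (cay σ (circleMap 0 r θ))).re =
      ∫ θ in (0 : ℝ)..2 * Real.pi, (f (cay σ (circleMap 0 r θ))).re := by
    have := Complex.reCLM.intervalIntegral_comp_comm
      (hc.intervalIntegrable (μ := volume) 0 (2 * Real.pi))
    exact this.symm
  rw [h4] at h3
  rw [← h3]
  have : Real.pi ≠ 0 := Real.pi_ne_zero
  field_simp

theorem phi_image : (fun t : ℝ => -2 * Real.arctan t) '' Set.univ = Set.Ioo (-Real.pi) Real.pi := by
  ext θ
  simp only [Set.mem_image, Set.mem_univ, true_and, Set.mem_Ioo]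
  constructor
  · rintro ⟨t, rfl⟩
    have h1 := Real.neg_pi_div_two_lt_arctan t
    have h2 := Real.arctan_lt_pi_div_two t
    constructor <;> linarith
  · rintro ⟨h1, h2⟩
    refine ⟨Real.tan (-θ / 2), ?_⟩
    rw [Real.arctan_tan (by linarith) (by linarith)]
    ring

theorem phi_deriv (t : ℝ) : HasDerivAt (fun t : ℝ => -2 * Real.arctan t)
    (-2 / (1 + t ^ 2)) t := by
  refine ((Real.hasDerivAt_arctan t).const_mul (-2)).congr_deriv ?_
  rw [← div_eq_mul_one_div]

theorem phi_inj : Set.InjOn (fun t : ℝ => -2 * Real.arctan t) Set.univ := by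
  intro s _ t _ h
  have h1 : Real.arctan s = Real.arctan t := by
    simp only at h
    linarith
  exact Real.arctan_injective h1

/-- change of variables -/
theorem change (u : ℝ → ℝ) (hu : Continuous u) (hper : Function.Periodic u (2 * Real.pi)) :
    Integrable (fun t : ℝ => 2 / (1 + t ^ 2) * u (-2 * Real.arctan t)) ∧
    ∫ t : ℝ, 2 / (1 + t ^ 2) * u (-2 * Real.arctan t) = ∫ θ in (0 : ℝ)..2 * Real.pi, u θ := by
  have habs : ∀ t : ℝ, |(-2 / (1 + t ^ 2))| = 2 / (1 + t ^ 2) := by
    intro t
    rw [abs_div, abs_of_pos (show (0 : ℝ) < 1 + t ^ 2 by positivity)]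
    norm_num
  have hpi := Real.pi_pos
  have h1 := integral_image_eq_integral_abs_deriv_smul MeasurableSet.univ
    (fun t _ => (phi_deriv t).hasDerivWithinAt) phi_inj u
  have h2 := (integrableOn_image_iff_integrableOn_abs_deriv_smul MeasurableSet.univ
    (fun t _ => (phi_deriv t).hasDerivWithinAt) phi_inj u).1 (by
      rw [phi_image]
      exact (hu.continuousOn.integrableOn_Icc).mono_set Set.Ioo_subset_Icc_self)
  simp only [habs, smul_eq_mul, integrableOn_univ, Measure.restrict_univ] at h1 h2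
  refine ⟨h2, ?_⟩
  rw [← h1, phi_image, ← integral_Ioc_eq_integral_Ioo,
    ← intervalIntegral.integral_of_le (by linarith)]
  have h3 := hper.intervalIntegral_add_eq (-Real.pi) 0
  rw [zero_add] at h3
  rw [← h3]
  congr 1
  linarith

end

end Pool.Agent.H790.BSD
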